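import Mathlib
import Pool.Agent.TH94.Gol.Magnus

/-! Signs, order of vanishing and the Magnus filtration (adapted from the library file
TH94/Gol/FreeTPO), and the Magnus bi-order of a free group, which is preserved by every
automorphism that acts trivially on the abelianization. -/

set_option autoImplicit false

namespace Pool.Agent.R788.Mag

open MonoidAlgebra Pool.Agent.TH94.Gol

/-! ### the sign of an element of the free algebra -/

section sign
variable {J : Type} [LinearOrder J]

/-- the coefficient of the smallest word is positive -/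
def nnV (v : MonoidAlgebra ℚ (FreeMonoid J)) : Prop :=
  v = 0 ∨ ∃ W : FreeMonoid J, 0 < v.coeff W ∧
    ∀ W' : FreeMonoid J, FreeMonoid.toList W' < FreeMonoid.toList W → v.coeff W' = 0

lemma nnV_total (v : MonoidAlgebra ℚ (FreeMonoid J)) : nnV v ∨ nnV (-v) := by
  by_cases h0 : v = 0
  · exact Or.inl (Or.inl h0)
  · have hne : v.coeff.support.Nonempty := by
      rw [Finsupp.support_nonempty_iff]
      intro h; apply h0; rwa [MonoidAlgebra.coeff_eq_zero] at h
    obtain ⟨W, hW, hmin⟩ := Finset.exists_min_image v.coeff.support FreeMonoid.toList hne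
    have hz : ∀ W' : FreeMonoid J, FreeMonoid.toList W' < FreeMonoid.toList W → v.coeff W' = 0 := by
      intro W' hW'
      by_contra hcon
      exact absurd (hmin W' (Finsupp.mem_support_iff.mpr hcon)) (not_le.mpr hW')
    rcases lt_or_gt_of_ne (Finsupp.mem_support_iff.mp hW) with h | h
    · right; right
      refine ⟨W, by rw [MonoidAlgebra.coeff_neg, Finsupp.neg_apply]; linarith, ?_⟩
      intro W' hW'
      rw [MonoidAlgebra.coeff_neg, Finsupp.neg_apply, hz W' hW', neg_zero]
    · left; right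
      exact ⟨W, h, hz⟩

lemma nnV_add {v w : MonoidAlgebra ℚ (FreeMonoid J)} (hv : nnV v) (hw : nnV w) : nnV (v + w) := by
  rcases hv with rfl | ⟨W1, h1, h1'⟩
  · simpa using hw
  rcases hw with rfl | ⟨W2, h2, h2'⟩
  · right; simpa using ⟨W1, h1, h1'⟩
  right
  rcases lt_trichotomy (FreeMonoid.toList W1) (FreeMonoid.toList W2) with h | h | h
  · refine ⟨W1, ?_, ?_⟩
    · rw [MonoidAlgebra.coeff_add, Finsupp.add_apply, h2' W1 h, add_zero]; exact h1
    · intro W' hW'
      rw [MonoidAlgebra.coeff_add, Finsupp.add_apply, h1' W' hW', h2' W' (hW'.trans h), add_zero]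
  · have h' : W1 = W2 := FreeMonoid.toList.injective h
    subst h'
    refine ⟨W1, ?_, ?_⟩
    · rw [MonoidAlgebra.coeff_add, Finsupp.add_apply]; linarith
    · intro W' hW'
      rw [MonoidAlgebra.coeff_add, Finsupp.add_apply, h1' W' hW', h2' W' hW', add_zero]
  · refine ⟨W2, ?_, ?_⟩
    · rw [MonoidAlgebra.coeff_add, Finsupp.add_apply, h1' W2 h, zero_add]; exact h2
    · intro W' hW'
      rw [MonoidAlgebra.coeff_add, Finsupp.add_apply, h2' W' hW', h1' W' (hW'.trans h), add_zero]

lemma nnV_antisymm {v : MonoidAlgebra ℚ (FreeMonoid J)} (hv : nnV v) (hv' : nnV (-v)) : v = 0 := by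
  rcases hv with h | ⟨W1, h1, h1'⟩
  · exact h
  rcases hv' with h | ⟨W2, h2, h2'⟩
  · exact neg_eq_zero.mp h
  exfalso
  rw [MonoidAlgebra.coeff_neg, Finsupp.neg_apply] at h2
  rcases lt_trichotomy (FreeMonoid.toList W1) (FreeMonoid.toList W2) with h | h | h
  · have := h2' W1 h
    rw [MonoidAlgebra.coeff_neg, Finsupp.neg_apply] at this
    linarith
  · have h' : W1 = W2 := FreeMonoid.toList.injective h
    subst h'
    linarith
  · have := h1' W2 h
    linarith

end sign

/-! ### order of vanishing of power series -/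

section O
variable {A : Type} [Ring A]

/-- the coefficients of index `< n` vanish -/
def OO (n : ℕ) (f : PowerSeries A) : Prop := ∀ i < n, PowerSeries.coeff i f = 0

lemma OO.add {n : ℕ} {f g : PowerSeries A} (hf : OO n f) (hg : OO n g) : OO n (f + g) := by
  intro i hi; rw [map_add, hf i hi, hg i hi, add_zero]

lemma OO.neg {n : ℕ} {f : PowerSeries A} (hf : OO n f) : OO n (-f) := by
  intro i hi; rw [map_neg, hf i hi, neg_zero]

lemma OO.mono {n m : ℕ} {f : PowerSeries A} (hf : OO n f) (h : m ≤ n) : OO m f :=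
  fun i hi => hf i (lt_of_lt_of_le hi h)

lemma OO.mul {a b : ℕ} {f g : PowerSeries A} (hf : OO a f) (hg : OO b g) : OO (a + b) (f * g) := by
  intro i hi
  rw [PowerSeries.coeff_mul]
  apply Finset.sum_eq_zero
  rintro ⟨x, y⟩ hxy
  rw [Finset.HasAntidiagonal.mem_antidiagonal] at hxy
  simp only at hxy ⊢
  rcases lt_or_ge x a with h | h
  · rw [hf x h, zero_mul]
  · rw [hg y (by omega), mul_zero]

lemma OO.coeff_mul {a b : ℕ} {f g : PowerSeries A} (hf : OO a f) (hg : OO b g) :
    PowerSeries.coeff (a + b) (f * g) = PowerSeries.coeff a f * PowerSeries.coeff b g := by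
  rw [PowerSeries.coeff_mul]
  rw [Finset.sum_eq_single (a, b)]
  · rintro ⟨x, y⟩ hxy hne
    rw [Finset.HasAntidiagonal.mem_antidiagonal] at hxy
    simp only at hxy ⊢
    rcases lt_trichotomy x a with h | h | h
    · rw [hf x h, zero_mul]
    · exfalso; apply hne; subst h; congr; omega
    · rw [hg y (by omega), mul_zero]
  · intro h
    exfalso
    apply h
    rw [Finset.HasAntidiagonal.mem_antidiagonal]

lemma OO.zero (f : PowerSeries A) : OO 0 f := fun _ hi => absurd hi (Nat.not_lt_zero _)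

end O

/-! ### the Magnus filtration -/

section filt
variable {J : Type}

/-- the Magnus image -/
noncomputable abbrev MM (x : FreeGroup J) : PowerSeries (MonoidAlgebra ℚ (FreeMonoid J)) := magHom ℚ x

/-- the coefficient of degree `n` -/
noncomputable def cf (n : ℕ) (x : FreeGroup J) : MonoidAlgebra ℚ (FreeMonoid J) :=
  PowerSeries.coeff n (MM x)

lemma cf_zero (x : FreeGroup J) : cf 0 x = 1 := by
  have := magHom_zero ℚ x
  rwa [← PowerSeries.coeff_zero_eq_constantCoeff_apply] at this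

/-- the dimension filtration -/
def DD (n : ℕ) (x : FreeGroup J) : Prop := OO n (MM x - 1)

lemma DD_iff (n : ℕ) (x : FreeGroup J) : DD n x ↔ ∀ i, 1 ≤ i → i < n → cf i x = 0 := by
  unfold DD OO cf
  constructor
  · intro h i h1 h2
    have := h i h2
    rw [map_sub, PowerSeries.coeff_one, if_neg (by omega), sub_zero] at this
    exact this
  · intro h i hi
    rcases Nat.eq_zero_or_pos i with h0 | h0
    · subst h0
      rw [map_sub, PowerSeries.coeff_one, if_pos rfl]
      have := cf_zero x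
      unfold cf at this
      rw [this, sub_self]
    · rw [map_sub, PowerSeries.coeff_one, if_neg (by omega), sub_zero]
      exact h i h0 hi

lemma DD_one (x : FreeGroup J) : DD 1 x := by
  rw [DD_iff]; intro i h1 h2; omega

lemma coeff_sub_one {n : ℕ} (hn : 1 ≤ n) (x : FreeGroup J) :
    PowerSeries.coeff n (MM x - 1) = cf n x := by
  rw [map_sub, PowerSeries.coeff_one, if_neg (by omega), sub_zero]; rfl

lemma MM_mul (x y : FreeGroup J) : MM (x * y) = MM x * MM y := map_mul _ _ _

lemma DD_mul {n : ℕ} (hn : 1 ≤ n) {x y : FreeGroup J} (hx : DD n x) (hy : DD n y) :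
    DD n (x * y) ∧ cf n (x * y) = cf n x + cf n y := by
  have e : MM (x * y) - 1 = (MM x - 1) + (MM y - 1) + (MM x - 1) * (MM y - 1) := by
    rw [MM_mul]; noncomm_ring
  have h2 : OO (n + n) ((MM x - 1) * (MM y - 1)) := OO.mul hx hy
  constructor
  · unfold DD
    rw [e]
    exact (hx.add hy).add (h2.mono (by omega))
  · rw [← coeff_sub_one hn, e, map_add, map_add, coeff_sub_one hn, coeff_sub_one hn,
      h2 n (by omega), add_zero]

lemma DD_inv {n : ℕ} (hn : 1 ≤ n) {x : FreeGroup J} (hx : DD n x) :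
    DD n x⁻¹ ∧ cf n x⁻¹ = - cf n x := by
  have e : MM x⁻¹ - 1 = - ((MM x - 1) * MM x⁻¹) := by
    have : MM x * MM x⁻¹ = 1 := by rw [← MM_mul, mul_inv_cancel]; exact map_one _
    rw [sub_mul, this]; noncomm_ring
  have h0 : OO 0 (MM x⁻¹) := OO.zero _
  constructor
  · unfold DD
    rw [e]
    have := OO.mul hx h0
    rw [add_zero] at this
    exact this.neg
  · rw [← coeff_sub_one hn, e, map_neg]
    have := OO.coeff_mul hx h0
    rw [add_zero] at this
    rw [this, coeff_sub_one hn]
    have : PowerSeries.coeff 0 (MM x⁻¹) = 1 := cf_zero x⁻¹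
    rw [this, mul_one]

lemma DD_conj {n : ℕ} (hn : 1 ≤ n) (g : FreeGroup J) {x : FreeGroup J} (hx : DD n x) :
    DD n (g * x * g⁻¹) ∧ cf n (g * x * g⁻¹) = cf n x := by
  have e : MM (g * x * g⁻¹) - 1 = MM g * (MM x - 1) * MM g⁻¹ := by
    have : MM g * MM g⁻¹ = 1 := by rw [← MM_mul, mul_inv_cancel]; exact map_one _
    rw [MM_mul, MM_mul, mul_sub, sub_mul, mul_one, this]
  have h0 : OO 0 (MM g) := OO.zero _
  have h0' : OO 0 (MM g⁻¹) := OO.zero _
  have h1 := OO.mul h0 hx
  have h2 := OO.mul h1 h0'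
  rw [zero_add, add_zero] at h2
  constructor
  · unfold DD; rw [e]; exact h2
  · have h3 := OO.coeff_mul h1 h0'
    have h4 := OO.coeff_mul h0 hx
    rw [add_zero] at h3
    rw [h4] at h3
    rw [zero_add] at h3
    rw [← coeff_sub_one hn, e, h3, coeff_sub_one hn]
    have a1 : PowerSeries.coeff 0 (MM g⁻¹) = 1 := cf_zero g⁻¹
    have a2 : PowerSeries.coeff 0 (MM g) = 1 := cf_zero g
    rw [a1, a2, one_mul, mul_one]

/-- a nontrivial element is eventually outside of the filtration -/
lemma exists_not_DD (x : FreeGroup J) (hx : x ≠ 1) : ∃ n, ∀ m ≥ n, ¬ DD m x := by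
  have h1 : MM x ≠ 1 := by
    intro h
    apply hx
    have h2 : mag ℚ (single x 1) = mag ℚ (single (1 : FreeGroup J) 1) := by
      rw [mag_single, mag_single, one_smul, one_smul, map_one]; exact h
    have h3 := mag_injective ℚ h2
    exact (MonoidAlgebra.single_left_inj one_ne_zero).mp h3
  have h2 : ∃ i, PowerSeries.coeff i (MM x - 1) ≠ 0 := by
    by_contra hcon
    push Not at hcon
    apply h1
    have : MM x - 1 = 0 := by ext1 i; rw [hcon i, map_zero]
    exact sub_eq_zero.mp this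
  obtain ⟨i, hi⟩ := h2
  exact ⟨i + 1, fun m hm h => hi (h i (by omega))⟩

end filt

/-! ### homogeneity of the coefficients -/

section hom
variable {J : Type}

/-- the combinations of words of length `n` -/
def Hm (n : ℕ) (v : MonoidAlgebra ℚ (FreeMonoid J)) : Prop :=
  ∀ W, v.coeff W ≠ 0 → (FreeMonoid.toList W).length = n

lemma Hm.zero (n : ℕ) : Hm n (0 : MonoidAlgebra ℚ (FreeMonoid J)) := by
  intro W h
  simp at h

lemma Hm.add {n : ℕ} {v w : MonoidAlgebra ℚ (FreeMonoid J)} (hv : Hm n v) (hw : Hm n w) :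
    Hm n (v + w) := by
  intro W h
  rw [MonoidAlgebra.coeff_add, Finsupp.add_apply] at h
  by_cases h1 : v.coeff W = 0
  · apply hw
    intro h2
    apply h
    rw [h1, h2, add_zero]
  · exact hv W h1

lemma Hm.sum {ι : Type*} (s : Finset ι) (f : ι → MonoidAlgebra ℚ (FreeMonoid J)) {n : ℕ}
    (h : ∀ i ∈ s, Hm n (f i)) : Hm n (∑ i ∈ s, f i) := by
  classical
  induction s using Finset.induction_on with
  | empty => rw [Finset.sum_empty]; exact Hm.zero n
  | insert a s ha ih =>
    rw [Finset.sum_insert ha]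
    exact (h a (Finset.mem_insert_self _ _)).add
      (ih fun i hi => h i (Finset.mem_insert_of_mem hi))

lemma Hm.single (W : FreeMonoid J) (a : ℚ) :
    Hm (FreeMonoid.toList W).length (MonoidAlgebra.single W a) := by
  classical
  intro W' h
  rw [MonoidAlgebra.coeff_single, Finsupp.single_apply] at h
  by_cases h1 : W = W'
  · rw [h1]
  · rw [if_neg h1] at h
    exact absurd rfl h

lemma eq_sum_single (v : MonoidAlgebra ℚ (FreeMonoid J)) :
    v = ∑ W ∈ v.coeff.support, MonoidAlgebra.single W (v.coeff W) := by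
  classical
  ext W
  rw [MonoidAlgebra.coeff_sum, Finsupp.finsetSum_apply]
  simp only [MonoidAlgebra.coeff_single, Finsupp.single_apply]
  rw [Finset.sum_ite_eq']
  by_cases h : W ∈ v.coeff.support
  · rw [if_pos h]
  · rw [if_neg h]
    exact Finsupp.notMem_support_iff.mp h

lemma Hm.mul {m n : ℕ} {v w : MonoidAlgebra ℚ (FreeMonoid J)} (hv : Hm m v) (hw : Hm n w) :
    Hm (m + n) (v * w) := by
  rw [eq_sum_single v, eq_sum_single w, Finset.sum_mul_sum]
  apply Hm.sum
  intro W hW
  apply Hm.sum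
  intro W' hW'
  rw [MonoidAlgebra.single_mul_single]
  have h1 := hv W (Finsupp.mem_support_iff.mp hW)
  have h2 := hw W' (Finsupp.mem_support_iff.mp hW')
  have h3 := Hm.single (W * W') (v.coeff W * w.coeff W')
  rw [FreeMonoid.toList_mul, List.length_append, h1, h2] at h3
  exact h3

/-- power series with homogeneous coefficients -/
def HS (f : PowerSeries (MonoidAlgebra ℚ (FreeMonoid J))) : Prop :=
  ∀ n, Hm n (PowerSeries.coeff n f)

lemma HS.mul {f g : PowerSeries (MonoidAlgebra ℚ (FreeMonoid J))} (hf : HS f) (hg : HS g) :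
    HS (f * g) := by
  intro n
  rw [PowerSeries.coeff_mul]
  apply Hm.sum
  rintro ⟨a, b⟩ h
  rw [Finset.HasAntidiagonal.mem_antidiagonal] at h
  simp only at h ⊢
  rw [← h]
  exact (hf a).mul (hg b)

lemma Hm_zeta (j : J) : Hm 1 (zeta ℚ j) := by
  have h := Hm.single (FreeMonoid.of j) (1 : ℚ)
  simpa [zeta] using h

lemma Hm_one : Hm 0 (1 : MonoidAlgebra ℚ (FreeMonoid J)) := by
  have h := Hm.single (1 : FreeMonoid J) (1 : ℚ)
  simpa [MonoidAlgebra.one_def] using h

lemma Hm_neg_zeta_pow (j : J) (n : ℕ) : Hm n ((- zeta ℚ j) ^ n) := by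
  induction n with
  | zero => rw [pow_zero]; exact Hm_one
  | succ n ih =>
    rw [pow_succ]
    apply ih.mul
    intro W h
    apply Hm_zeta j W
    rw [MonoidAlgebra.coeff_neg, Finsupp.neg_apply] at h
    exact neg_ne_zero.mp h

lemma HS_MM (g : FreeGroup J) : HS (MM g) := by
  induction g using FreeGroup.induction_on with
  | C1 =>
    intro n
    rw [MM, map_one, PowerSeries.coeff_one]
    split_ifs with h
    · rw [h]; exact Hm_one
    · exact Hm.zero n
  | of j =>
    intro n
    have h1 : MM (FreeGroup.of j) = 1 + PowerSeries.C (zeta ℚ j) * PowerSeries.X := by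
      simp [MM, magHom, U]
    rw [h1, map_add, PowerSeries.coeff_one]
    rcases n with _ | _ | n
    · simpa using Hm_one
    · simpa [PowerSeries.coeff_succ_mul_X] using Hm_zeta j
    · rw [PowerSeries.coeff_succ_mul_X, if_neg (by omega), zero_add,
        PowerSeries.coeff_C_of_ne_zero (by omega)]
      exact Hm.zero _
  | inv_of j ih =>
    intro n
    have h1 : MM (FreeGroup.of j)⁻¹ = PowerSeries.mk (fun n => (- zeta ℚ j) ^ n) := by
      have h2 : (FreeGroup.lift (U ℚ)) (FreeGroup.of j)⁻¹ = (U ℚ j)⁻¹ := by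
        rw [map_inv, FreeGroup.lift_apply_of]
      show (Units.coeHom _) ((FreeGroup.lift (U ℚ)) (FreeGroup.of j)⁻¹) = _
      rw [h2]
      rfl
    rw [h1, PowerSeries.coeff_mk]
    exact Hm_neg_zeta_pow j n
  | mul x y hx hy =>
    rw [MM_mul]
    exact hx.mul hy

/-! ### automorphisms acting trivially on the abelianization -/

lemma cf_one_of (j : J) : cf 1 (FreeGroup.of j) = zeta ℚ j := by
  have h1 : MM (FreeGroup.of j) = 1 + PowerSeries.C (zeta ℚ j) * PowerSeries.X := by
    simp [MM, magHom, U]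
  rw [cf, h1, map_add, PowerSeries.coeff_one, if_neg one_ne_zero, zero_add]
  rw [show (1 : ℕ) = 0 + 1 from rfl, PowerSeries.coeff_succ_mul_X]
  simp

variable (φ : FreeGroup J →* FreeGroup J)

/-- the substitution of `MM (φ x_j) - 1` for the letters -/
noncomputable def Sb : MonoidAlgebra ℚ (FreeMonoid J) →ₐ[ℚ]
    PowerSeries (MonoidAlgebra ℚ (FreeMonoid J)) :=
  MonoidAlgebra.lift ℚ _ _ (FreeMonoid.lift fun j => MM (φ (FreeGroup.of j)) - 1)

lemma Sb_word (hφ : ∀ j, cf 1 (φ (FreeGroup.of j)) = zeta ℚ j) (L : List J) :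
    OO L.length (Sb φ (MonoidAlgebra.single (FreeMonoid.ofList L) 1)) ∧
    PowerSeries.coeff L.length (Sb φ (MonoidAlgebra.single (FreeMonoid.ofList L) 1)) =
      MonoidAlgebra.single (FreeMonoid.ofList L) 1 := by
  induction L with
  | nil =>
    have : (MonoidAlgebra.single (FreeMonoid.ofList ([] : List J)) (1 : ℚ)) = 1 := rfl
    rw [this, map_one]
    refine ⟨OO.zero _, ?_⟩
    simp
  | cons j L ih =>
    have e : (MonoidAlgebra.single (FreeMonoid.ofList (j :: L)) (1 : ℚ)) =
        zeta ℚ j * MonoidAlgebra.single (FreeMonoid.ofList L) 1 := by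
      rw [zeta, MonoidAlgebra.single_mul_single, mul_one]
      rfl
    have hz : Sb φ (zeta ℚ j) = MM (φ (FreeGroup.of j)) - 1 := by
      rw [Sb, zeta, MonoidAlgebra.lift_single, one_smul]
      simp
    have h1 : OO 1 (Sb φ (zeta ℚ j)) := by
      rw [hz]
      exact DD_one _
    have h2 : PowerSeries.coeff 1 (Sb φ (zeta ℚ j)) = zeta ℚ j := by
      rw [hz, coeff_sub_one le_rfl, hφ]
    rw [e, map_mul, List.length_cons, add_comm L.length 1]
    refine ⟨h1.mul ih.1, ?_⟩
    rw [OO.coeff_mul h1 ih.1, h2, ih.2]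

lemma Sb_hom (hφ : ∀ j, cf 1 (φ (FreeGroup.of j)) = zeta ℚ j) {n : ℕ}
    {v : MonoidAlgebra ℚ (FreeMonoid J)} (hv : Hm n v) :
    OO n (Sb φ v) ∧ PowerSeries.coeff n (Sb φ v) = v := by
  have key : ∀ W ∈ v.coeff.support,
      OO n (Sb φ (MonoidAlgebra.single W (v.coeff W))) ∧
      PowerSeries.coeff n (Sb φ (MonoidAlgebra.single W (v.coeff W))) =
        MonoidAlgebra.single W (v.coeff W) := by
    intro W hW
    have h1 := hv W (Finsupp.mem_support_iff.mp hW)
    have h2 := Sb_word φ hφ (FreeMonoid.toList W)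
    rw [h1] at h2
    have e : (MonoidAlgebra.single W (v.coeff W)) =
        (v.coeff W) • (MonoidAlgebra.single (FreeMonoid.ofList (FreeMonoid.toList W)) (1 : ℚ)) := by
      rw [MonoidAlgebra.smul_single, smul_eq_mul, mul_one]
      rfl
    rw [e, map_smul]
    constructor
    · intro i hi
      rw [PowerSeries.coeff_smul, h2.1 i hi, smul_zero]
    · rw [PowerSeries.coeff_smul, h2.2]
  have hs : Sb φ v = ∑ W ∈ v.coeff.support, Sb φ (MonoidAlgebra.single W (v.coeff W)) := by
    conv_lhs => rw [eq_sum_single v]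
    rw [map_sum]
  rw [hs]
  constructor
  · intro i hi
    rw [map_sum]
    exact Finset.sum_eq_zero fun W hW => (key W hW).1 i hi
  · rw [map_sum, Finset.sum_congr rfl fun W hW => (key W hW).2]
    exact (eq_sum_single v).symm

/-- truncated substitution -/
noncomputable def SN (N : ℕ) (g : FreeGroup J) : PowerSeries (MonoidAlgebra ℚ (FreeMonoid J)) :=
  ∑ i ∈ Finset.range (N + 1), Sb φ (cf i g)

lemma cf_Hm (i : ℕ) (g : FreeGroup J) : Hm i (cf i g) := HS_MM g i

lemma cf_mul (n : ℕ) (g h : FreeGroup J) :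
    cf n (g * h) = ∑ p ∈ Finset.HasAntidiagonal.antidiagonal n, cf p.1 g * cf p.2 h := by
  rw [cf, MM_mul, PowerSeries.coeff_mul]
  rfl

lemma OO.sum' {ι : Type*} {A : Type} [Ring A] (s : Finset ι) (f : ι → PowerSeries A) {n : ℕ}
    (h : ∀ i ∈ s, OO n (f i)) : OO n (∑ i ∈ s, f i) := by
  intro k hk
  rw [map_sum]
  exact Finset.sum_eq_zero fun i hi => h i hi k hk

lemma SN_mul (hφ : ∀ j, cf 1 (φ (FreeGroup.of j)) = zeta ℚ j) (N : ℕ) (g h : FreeGroup J) :
    OO (N + 1) (SN φ N g * SN φ N h - SN φ N (g * h)) := by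
  classical
  have e1 : SN φ N g * SN φ N h = ∑ p ∈ Finset.range (N + 1) ×ˢ Finset.range (N + 1),
      Sb φ (cf p.1 g) * Sb φ (cf p.2 h) := by
    rw [SN, SN, Finset.sum_mul_sum, Finset.sum_product]
  have e2 : SN φ N (g * h) = ∑ p ∈ (Finset.range (N + 1) ×ˢ Finset.range (N + 1)).filter
      (fun p => p.1 + p.2 < N + 1), Sb φ (cf p.1 g) * Sb φ (cf p.2 h) := by
    rw [SN]
    have : ∀ i ∈ Finset.range (N + 1), Sb φ (cf i (g * h)) =
        ∑ p ∈ Finset.HasAntidiagonal.antidiagonal i, Sb φ (cf p.1 g) * Sb φ (cf p.2 h) := by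
      intro i _
      rw [cf_mul, map_sum]
      exact Finset.sum_congr rfl fun p _ => map_mul _ _ _
    rw [Finset.sum_congr rfl this, Finset.sum_sigma']
    refine Finset.sum_bij (fun x _ => x.2) ?_ ?_ ?_ ?_
    · rintro ⟨i, p⟩ hx
      simp only [Finset.mem_sigma, Finset.mem_range, Finset.HasAntidiagonal.mem_antidiagonal] at hx
      simp only [Finset.mem_filter, Finset.mem_product, Finset.mem_range]
      omega
    · rintro ⟨i, p⟩ hx ⟨i', p'⟩ hx' h
      simp only [Finset.mem_sigma, Finset.mem_range, Finset.HasAntidiagonal.mem_antidiagonal]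
        at hx hx'
      simp only at h
      subst h
      have : i = i' := by omega
      subst this
      rfl
    · rintro p hp
      simp only [Finset.mem_filter, Finset.mem_product, Finset.mem_range] at hp
      refine ⟨⟨p.1 + p.2, p⟩, ?_, rfl⟩
      simp only [Finset.mem_sigma, Finset.mem_range, Finset.HasAntidiagonal.mem_antidiagonal]
      exact ⟨hp.2, trivial⟩
    · rintro x hx
      rfl
  rw [e1, e2, ← Finset.sum_filter_add_sum_filter_not (Finset.range (N + 1) ×ˢ Finset.range (N + 1))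
    (fun p => p.1 + p.2 < N + 1), add_sub_cancel_left]
  apply OO.sum'
  rintro ⟨a, b⟩ hab
  simp only [Finset.mem_filter, Finset.mem_product, Finset.mem_range] at hab
  have h1 := (Sb_hom φ hφ (cf_Hm a g)).1.mul (Sb_hom φ hφ (cf_Hm b h)).1
  exact h1.mono (by omega)

lemma SN_one (N : ℕ) : SN φ N (1 : FreeGroup J) = 1 := by
  rw [SN, Finset.sum_eq_single 0]
  · rw [cf_zero, map_one]
  · intro i _ hi
    have : cf i (1 : FreeGroup J) = 0 := by
      rw [cf, MM, map_one, PowerSeries.coeff_one, if_neg hi]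
    rw [this, map_zero]
  · intro h
    exact absurd (Finset.mem_range.mpr (Nat.succ_pos N)) h

lemma sub_OO {A : Type} [Ring A] {n : ℕ} {a b c : PowerSeries A} (h1 : OO n (a - b))
    (h2 : OO n (b - c)) : OO n (a - c) := by
  have := h1.add h2
  rwa [sub_add_sub_cancel] at this

lemma MM_phi (hφ : ∀ j, cf 1 (φ (FreeGroup.of j)) = zeta ℚ j) (N : ℕ) (g : FreeGroup J) :
    OO (N + 1) (MM (φ g) - SN φ N g) := by
  have hmul : ∀ x y : FreeGroup J, OO (N + 1) (MM (φ x) - SN φ N x) →
      OO (N + 1) (MM (φ y) - SN φ N y) → OO (N + 1) (MM (φ (x * y)) - SN φ N (x * y)) := by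
    intro x y hx hy
    have e : MM (φ (x * y)) - SN φ N (x * y) = (MM (φ x) - SN φ N x) * MM (φ y) +
        SN φ N x * (MM (φ y) - SN φ N y) + (SN φ N x * SN φ N y - SN φ N (x * y)) := by
      rw [map_mul, MM_mul]
      noncomm_ring
    rw [e]
    have h1 := hx.mul (OO.zero (MM (φ y)))
    have h2 := (OO.zero (SN φ N x)).mul hy
    rw [add_zero] at h1
    rw [zero_add] at h2
    exact (h1.add h2).add (SN_mul φ hφ N x y)
  have hinv : ∀ x : FreeGroup J, OO (N + 1) (MM (φ x) - SN φ N x) →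
      OO (N + 1) (MM (φ x⁻¹) - SN φ N x⁻¹) := by
    intro x hx
    have h1 := SN_mul φ hφ N x x⁻¹
    rw [mul_inv_cancel, SN_one] at h1
    have e1 : MM (φ x) * MM (φ x⁻¹) = 1 := by
      rw [← MM_mul, ← map_mul, mul_inv_cancel, map_one]
      exact map_one _
    have e2 : MM (φ x⁻¹) * MM (φ x) = 1 := by
      rw [← MM_mul, ← map_mul, inv_mul_cancel, map_one]
      exact map_one _
    have e : MM (φ x⁻¹) - SN φ N x⁻¹ =
        MM (φ x⁻¹) * -((SN φ N x * SN φ N x⁻¹ - 1) + (MM (φ x) - SN φ N x) * SN φ N x⁻¹) := by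
      have : MM (φ x⁻¹) * -((SN φ N x * SN φ N x⁻¹ - 1) + (MM (φ x) - SN φ N x) * SN φ N x⁻¹)
          = MM (φ x⁻¹) - (MM (φ x⁻¹) * MM (φ x)) * SN φ N x⁻¹ := by noncomm_ring
      rw [this, e2, one_mul]
    rw [e]
    have h2 := hx.mul (OO.zero (SN φ N x⁻¹))
    rw [add_zero] at h2
    have h3 := (OO.zero (MM (φ x⁻¹))).mul (h1.add h2).neg
    rwa [zero_add] at h3
  induction g using FreeGroup.induction_on with
  | C1 =>
    rw [SN_one, map_one]
    have : MM (1 : FreeGroup J) = 1 := map_one _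
    rw [this, sub_self]
    intro i _
    rw [map_zero]
  | of j =>
    rw [SN]
    have hz : Sb φ (zeta ℚ j) = MM (φ (FreeGroup.of j)) - 1 := by
      rw [Sb, zeta, MonoidAlgebra.lift_single, one_smul]
      simp
    have hc : ∀ i, 2 ≤ i → cf i (FreeGroup.of j) = 0 := by
      intro i hi
      have h1 : MM (FreeGroup.of j) = 1 + PowerSeries.C (zeta ℚ j) * PowerSeries.X := by
        simp [MM, magHom, U]
      obtain ⟨k, rfl⟩ : ∃ k, i = k + 2 := ⟨i - 2, by omega⟩
      rw [cf, h1, map_add, PowerSeries.coeff_one, if_neg (by omega), zero_add,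
        PowerSeries.coeff_succ_mul_X, PowerSeries.coeff_C_of_ne_zero (by omega)]
    rcases N with _ | N
    · rw [Finset.sum_range_one, cf_zero, map_one]
      exact DD_one _
    · rw [Finset.sum_range_succ', Finset.sum_range_succ']
      rw [Finset.sum_eq_zero (fun i _ => by rw [hc _ (by omega), map_zero])]
      rw [zero_add, zero_add, cf_zero, map_one, cf_one_of, hz]
      rw [sub_add_cancel, sub_self]
      intro i _
      rw [map_zero]
  | inv_of j ih => exact hinv _ ih
  | mul x y hx hy => exact hmul x y hx hy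

/-- the leading coefficient is unchanged by an endomorphism acting trivially on the
abelianization -/
lemma cf_phi (hφ : ∀ j, cf 1 (φ (FreeGroup.of j)) = zeta ℚ j) {n : ℕ} (hn : 1 ≤ n)
    {x : FreeGroup J} (hx : DD n x) : DD n (φ x) ∧ cf n (φ x) = cf n x := by
  have h1 := MM_phi φ hφ n x
  have h2 : SN φ n x = 1 + Sb φ (cf n x) := by
    rw [SN, Finset.sum_range_succ]
    congr 1
    rw [Finset.sum_eq_single 0]
    · rw [cf_zero, map_one]
    · intro i hi h0
      rw [(DD_iff n x).1 hx i (by omega) (Finset.mem_range.1 hi), map_zero]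
    · intro h
      exact absurd (Finset.mem_range.mpr hn) h
  rw [h2] at h1
  obtain ⟨h3, h4⟩ := Sb_hom φ hφ (cf_Hm n x)
  have e : MM (φ x) - 1 = (MM (φ x) - (1 + Sb φ (cf n x))) + Sb φ (cf n x) := by abel
  constructor
  · rw [DD, e]
    exact (h1.mono (by omega)).add h3
  · rw [← coeff_sub_one hn, e, map_add, h1 n (by omega), zero_add, h4]

end hom

/-! ### the Magnus order -/

section cone
variable {J : Type} [LinearOrder J]

/-- the positive cone of the Magnus order -/
def PCone : Set (FreeGroup J) := {x | ∃ n, 1 ≤ n ∧ DD n x ∧ cf n x ≠ 0 ∧ nnV (cf n x)}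

omit [LinearOrder J] in
lemma DD_mono {n m : ℕ} {x : FreeGroup J} (h : DD n x) (hm : m ≤ n) : DD m x := OO.mono h hm

omit [LinearOrder J] in
lemma cf_eq_zero_of_DD {n m : ℕ} {x : FreeGroup J} (h : DD n x) (h1 : 1 ≤ m) (hm : m < n) :
    cf m x = 0 := (DD_iff n x).1 h m h1 hm

lemma PCone_mul {x y : FreeGroup J} (hx : x ∈ PCone) (hy : y ∈ PCone) : x * y ∈ PCone := by
  obtain ⟨n, hn, h1, h2, h3⟩ := hx
  obtain ⟨m, hm, k1, k2, k3⟩ := hy
  rcases lt_trichotomy n m with h | h | h
  · have h4 := DD_mul hn h1 (DD_mono k1 h.le)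
    rw [cf_eq_zero_of_DD k1 hn h, add_zero] at h4
    exact ⟨n, hn, h4.1, by rw [h4.2]; exact h2, by rw [h4.2]; exact h3⟩
  · subst h
    have h4 := DD_mul hn h1 k1
    refine ⟨n, hn, h4.1, ?_, by rw [h4.2]; exact nnV_add h3 k3⟩
    rw [h4.2]
    intro h5
    have h6 : cf n y = - cf n x := by
      rw [add_comm] at h5
      exact eq_neg_of_add_eq_zero_left h5
    rw [h6] at k3
    exact h2 (nnV_antisymm h3 k3)
  · have h4 := DD_mul hm (DD_mono h1 h.le) k1
    rw [cf_eq_zero_of_DD h1 hm h, zero_add] at h4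
    exact ⟨m, hm, h4.1, by rw [h4.2]; exact k2, by rw [h4.2]; exact k3⟩

lemma PCone_conj (g : FreeGroup J) {x : FreeGroup J} (hx : x ∈ PCone) : g * x * g⁻¹ ∈ PCone := by
  obtain ⟨n, hn, h1, h2, h3⟩ := hx
  have h4 := DD_conj hn g h1
  exact ⟨n, hn, h4.1, by rw [h4.2]; exact h2, by rw [h4.2]; exact h3⟩

lemma one_notMem_PCone : (1 : FreeGroup J) ∉ PCone := by
  rintro ⟨n, hn, h1, h2, h3⟩
  apply h2
  rw [cf, MM, map_one, PowerSeries.coeff_one, if_neg (by omega)]

lemma PCone_total {x : FreeGroup J} (hx : x ≠ 1) : x ∈ PCone ∨ x⁻¹ ∈ PCone := by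
  classical
  obtain ⟨N, hN⟩ := exists_not_DD x hx
  have hex : ∃ n, ¬ DD (n + 1) x := ⟨N, hN _ (by omega)⟩
  have h1 := Nat.find_spec hex
  have h2 : ∀ m, m < Nat.find hex → DD (m + 1) x := fun m hm => by
    have := Nat.find_min hex hm
    rwa [not_not] at this
  have hn : 1 ≤ Nat.find hex := by
    by_contra h
    have h0 : Nat.find hex = 0 := by omega
    rw [h0] at h1
    exact h1 (DD_one x)
  have h3 : DD (Nat.find hex) x := by
    have := h2 (Nat.find hex - 1) (by omega)
    rwa [Nat.sub_add_cancel hn] at this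
  have h4 : cf (Nat.find hex) x ≠ 0 := by
    intro h
    apply h1
    rw [DD_iff]
    intro i hi1 hi2
    rcases Nat.lt_succ_iff_lt_or_eq.1 hi2 with h5 | h5
    · exact cf_eq_zero_of_DD h3 hi1 h5
    · rw [h5]; exact h
  rcases nnV_total (cf (Nat.find hex) x) with h | h
  · exact Or.inl ⟨_, hn, h3, h4, h⟩
  · have h5 := DD_inv hn h3
    exact Or.inr ⟨_, hn, h5.1, by rw [h5.2]; exact neg_ne_zero.2 h4, by rw [h5.2]; exact h⟩

lemma PCone_not_both {x : FreeGroup J} (hx : x ∈ PCone) : x⁻¹ ∉ PCone := by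
  intro h
  have := PCone_mul hx h
  rw [mul_inv_cancel] at this
  exact one_notMem_PCone this

lemma PCone_phi (φ : FreeGroup J →* FreeGroup J)
    (hφ : ∀ j, cf 1 (φ (FreeGroup.of j)) = zeta ℚ j) {x : FreeGroup J} (hx : x ∈ PCone) :
    φ x ∈ PCone := by
  obtain ⟨n, hn, h1, h2, h3⟩ := hx
  have h4 := cf_phi φ hφ hn h1
  exact ⟨n, hn, h4.1, by rw [h4.2]; exact h2, by rw [h4.2]; exact h3⟩

/-- An automorphism that acts trivially on `cf 1` (on the abelianization) preserves the cone. -/
lemma PCone_aut (φ : MulAut (FreeGroup J)) (hφ : ∀ x, cf 1 (φ x) = cf 1 x) :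
    φ '' PCone = PCone := by
  ext y
  constructor
  · rintro ⟨x, hx, rfl⟩
    exact PCone_phi φ.toMonoidHom (fun j => by
      have := hφ (FreeGroup.of j)
      rw [cf_one_of] at this
      exact this) hx
  · intro hy
    refine ⟨φ.symm y, ?_, by simp⟩
    refine PCone_phi φ.symm.toMonoidHom (fun j => ?_) hy
    have := hφ (φ.symm (FreeGroup.of j))
    rw [MulEquiv.apply_symm_apply, cf_one_of] at this
    exact this.symm

end cone

end Pool.Agent.R788.Mag
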